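import Mathlib

set_option autoImplicit false

/-!
# Project LK (helper236, `MP_daec8e_mp`): absolute continuity for leaky periodic curves

Definitions.  `Pl` is the plane.  The curve is `γ`, with `γ (s + L) = γ s + p e`, `e, e'` an
orthonormal basis; `x s = ⟨e, γ s⟩ / p`, `y s = ⟨e', γ s⟩`.  Bloch fibres: `HH = L²(ℤ × ℝ)`
(a point `q = (n, ξ)` is the frequency `((k + n) / p, ξ)`), `KK L = L²((0, L])` (functions on one period
of the curve).  `W φ = Φ φ / ω` with `Φ φ (n, ξ) = ∫ φ(s) e^{-2πi(n x(s) + ξ y(s))} ds` and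
`ω = √(1 + n² + ξ²)`; `M g` is the multiplication by the bounded continuous function `g`;
`IO G` is the integral operator with the bounded continuous kernel `G`.
-/

namespace Pool.Agent.H236.LK

open MeasureTheory Set Filter Topology
open scoped ENNReal ComplexConjugate BoundedContinuousFunction SchwartzMap FourierTransform

noncomputable section

/-! ### The problem -/

/-- the plane -/
abbrev Pl := EuclideanSpace ℝ (Fin 2)

/-- An infinite simple periodic `C¹` curve, parametrised by arc length. -/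
structure PeriodicCurve (γ : ℝ → Pl) : Prop where
  injective : Function.Injective γ
  c1 : ContDiff ℝ 1 γ
  unit_speed : ∀ s, ‖deriv γ s‖ = 1
  periodic : ∃ L : ℝ, 0 < L ∧ ∃ l : Pl, l ≠ 0 ∧ ∀ s, γ (s + L) = γ s + l

/-- `q(φ, ψ) - z (φ, ψ)`, where `q(φ, ψ) = ∫ ∇φ · conj ∇ψ dx - α ∫ φ(γ(s)) conj ψ(γ(s)) ds` is the
quadratic form of the leaky curve Hamiltonian (in its sesquilinear form). -/
def form (α : ℝ) (γ : ℝ → Pl) (z : ℂ) (φ ψ : 𝓢(Pl, ℂ)) : ℂ :=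
  (∫ x, ∑ i : Fin 2, fderiv ℝ φ x (EuclideanSpace.single i 1) *
      conj (fderiv ℝ ψ x (EuclideanSpace.single i 1)))
    - α * (∫ s : ℝ, φ (γ s) * conj (ψ (γ s))) - z * ∫ x, φ x * conj (ψ x)

/-- `u` is in the form domain `H¹(ℝ²)` and `q(u, ψ) - z (u, ψ) = (f, ψ)` for all Schwartz functions
`ψ`; that is, `u` is in the domain of the Hamiltonian `H` and `(H - z) u = f`.  Here `u` is in `H¹` and
has the form values `q(u, ψ)` as a limit, in the norm of `H¹`, of Schwartz functions. -/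
def IsRes (α : ℝ) (γ : ℝ → Pl) (z : ℂ) (f u : Lp ℂ 2 (volume : Measure Pl)) : Prop :=
  ∃ φ : ℕ → 𝓢(Pl, ℂ), Tendsto (fun j => (φ j).toLp 2) atTop (𝓝 u) ∧
    (∀ ε : ℝ, 0 < ε → ∃ N, ∀ i ≥ N, ∀ j ≥ N, ∫ x, ‖fderiv ℝ (φ i) x - fderiv ℝ (φ j) x‖ ^ 2 < ε) ∧
    ∀ ψ : 𝓢(Pl, ℂ), Tendsto (fun j => form α γ z (φ j) ψ) atTop (𝓝 (∫ x, f x * conj (ψ x)))

/-! ### The curve in coordinates -/

/-- The curve in the coordinates adapted to the period. -/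
structure Crv (L : ℝ) (x y : ℝ → ℝ) : Prop where
  L_pos : 0 < L
  cx : Continuous x
  cy : Continuous y
  px : ∀ s, x (s + L) = x s + 1
  py : ∀ s, y (s + L) = y s
  bilip : ∃ c : ℝ, 0 < c ∧ ∀ s t, c * (s - t) ^ 2 ≤ (x s - x t) ^ 2 + (y s - y t) ^ 2

/-- functions on one period of the curve -/
abbrev KK (L : ℝ) := Lp ℂ 2 (volume.restrict (Ioc (0 : ℝ) L))

/-- the measure on the Bloch frequencies -/
abbrev nu : Measure (ℤ × ℝ) := (Measure.count : Measure ℤ).prod volume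

/-- the Bloch fibre -/
abbrev HH := Lp ℂ 2 nu

/-- `e^{2πi(n x(s) + ξ y(s))}` -/
def ev (x y : ℝ → ℝ) (q : ℤ × ℝ) (s : ℝ) : ℂ :=
  Complex.exp (2 * Real.pi * Complex.I * ((q.1 : ℂ) * (x s : ℂ) + (q.2 : ℂ) * (y s : ℂ)))

/-- `Φ φ (n, ξ) = ∫_0^L φ(s) e^{-2πi(n x(s) + ξ y(s))} ds` -/
def Phi (L : ℝ) (x y : ℝ → ℝ) (φ : ℝ → ℂ) (q : ℤ × ℝ) : ℂ :=
  ∫ s in Ioc (0 : ℝ) L, conj (ev x y q s) * φ s

/-- `1 + n² + ξ²` -/
def om2 (q : ℤ × ℝ) : ℝ := 1 + (q.1 : ℝ) ^ 2 + q.2 ^ 2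

/-- `√(1 + n² + ξ²)` -/
def om (q : ℤ × ℝ) : ℝ := √(om2 q)

/-! ### Operators -/

/-- `M g` is the multiplication by `g` -/
def IsM (M : (ℤ × ℝ →ᵇ ℂ) →L[ℂ] (HH →L[ℂ] HH)) : Prop :=
  ∀ (g : ℤ × ℝ →ᵇ ℂ) (f : HH), (M g f : ℤ × ℝ → ℂ) =ᵐ[nu] fun q => g q * f q

/-- `IO G` is the integral operator with the kernel `G` -/
def IsIO (L : ℝ) (IO : (ℝ × ℝ →ᵇ ℂ) →L[ℂ] (KK L →L[ℂ] KK L)) : Prop :=
  ∀ (G : ℝ × ℝ →ᵇ ℂ) (φ : KK L), (IO G φ : ℝ → ℂ) =ᵐ[volume.restrict (Ioc (0 : ℝ) L)]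
    fun s => ∫ t in Ioc (0 : ℝ) L, G (s, t) * φ t

/-- `W φ = Φ φ / ω` -/
def IsW (L : ℝ) (x y : ℝ → ℝ) (W : KK L →L[ℂ] HH) : Prop :=
  ∀ φ : KK L, (W φ : ℤ × ℝ → ℂ) =ᵐ[nu] fun q => Phi L x y φ q / om q

/-- operators of finite rank -/
def FR (X Y : Type*) [NormedAddCommGroup X] [NormedSpace ℂ X] [NormedAddCommGroup Y]
    [NormedSpace ℂ Y] : Set (X →L[ℂ] Y) :=
  {T | FiniteDimensional ℂ (LinearMap.range (T : X →ₗ[ℂ] Y))}

/-- norm limits of operators of finite rank -/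
def Cpt (X Y : Type*) [NormedAddCommGroup X] [NormedSpace ℂ X] [NormedAddCommGroup Y]
    [NormedSpace ℂ Y] : Set (X →L[ℂ] Y) :=
  closure (FR X Y)

/-! ### Symbols -/

/-- `4π²(b (k + n)² + ξ²)`, the symbol of `-Δ` in the fibre `k`; `b = 1/p²` -/
def sy (b : ℝ) (k : ℂ) (q : ℤ × ℝ) : ℂ := 4 * Real.pi ^ 2 * (b * (k + q.1) ^ 2 + (q.2 : ℂ) ^ 2)

/-- `4π² b (k + n)² - z` -/
def ch (b : ℝ) (n : ℤ) (k z : ℂ) : ℂ := 4 * Real.pi ^ 2 * b * (k + n) ^ 2 - z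

/-- `z` is away from the symbol off the channels in `O` -/
def Good (b : ℝ) (O : Finset ℤ) (k z : ℂ) : Prop :=
  ∃ c : ℝ, 0 < c ∧ ∀ q : ℤ × ℝ, q.1 ∉ O → c * om2 q ≤ ‖sy b k q - z‖

/-- the bounded continuous function with the given values, `0` if there is none -/
def bc (F : ℤ × ℝ → ℂ) : ℤ × ℝ →ᵇ ℂ :=
  open Classical in
  if h : Continuous F ∧ ∃ C : ℝ, ∀ q, ‖F q‖ ≤ C then
    BoundedContinuousFunction.ofNormedAddCommGroup F h.1 h.2.choose h.2.choose_spec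
  else 0

/-- `ω^j / (a - z)` off the channels in `O`, and `0` on them -/
def mo (b : ℝ) (j : ℕ) (O : Finset ℤ) (k z : ℂ) (q : ℤ × ℝ) : ℂ :=
  if q.1 ∈ O then 0 else (om q : ℂ) ^ j / (sy b k q - z)

/-- the part of the Birman-Schwinger operator off the channels in `O` -/
def QQ {L : ℝ} (W : KK L →L[ℂ] HH) (M : (ℤ × ℝ →ᵇ ℂ) →L[ℂ] (HH →L[ℂ] HH)) (b : ℝ)
    (O : Finset ℤ) (k z : ℂ) : KK L →L[ℂ] KK L :=
  (ContinuousLinearMap.adjoint W).comp ((M (bc (mo b 2 O k z))).comp W)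

/-! ### Kernels of single channels -/

/-- the bounded continuous function with the given values, `0` if there is none -/
def bk (F : ℝ × ℝ → ℂ) : ℝ × ℝ →ᵇ ℂ :=
  open Classical in
  if h : Continuous F ∧ ∃ C : ℝ, ∀ q, ‖F q‖ ≤ C then
    BoundedContinuousFunction.ofNormedAddCommGroup F h.1 h.2.choose h.2.choose_spec
  else 0

/-- the kernel of the channel `n`: `e^{2πi n(x(s) - x(t))} e^{-κ |y(s) - y(t)|} / (2κ)` -/
def ker (x y : ℝ → ℝ) (n : ℤ) (κ : ℂ) (st : ℝ × ℝ) : ℂ :=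
  Complex.exp (2 * Real.pi * Complex.I * n * (x st.1 - x st.2)) *
    Complex.exp (-κ * |y st.1 - y st.2|) / (2 * κ)

/-- square root, continued from the upper half plane -/
def sqU (w : ℂ) : ℂ := Complex.exp (Real.pi / 4 * Complex.I) * (-Complex.I * w) ^ (1 / 2 : ℂ)

/-- square root, continued from the lower half plane -/
def sqD (w : ℂ) : ℂ := Complex.exp (-(Real.pi / 4 * Complex.I)) * (Complex.I * w) ^ (1 / 2 : ℂ)

/-- the branch reached from complex quasi-momenta `0 < Re k < 1`, `Im k > 0` -/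
def kmix (b : ℝ) (n : ℤ) (k z : ℂ) : ℂ := if 0 ≤ n then sqU (ch b n k z) else sqD (ch b n k z)

/-- the outgoing branch, reached from complex energies `Im z > 0` -/
def kout (b : ℝ) (n : ℤ) (k z : ℂ) : ℂ := -Complex.I * (-ch b n k z) ^ (1 / 2 : ℂ)

/-- the Birman-Schwinger operator with the branches `κ n` in the channels of `O` -/
def AA {L : ℝ} (x y : ℝ → ℝ) (W : KK L →L[ℂ] HH) (M : (ℤ × ℝ →ᵇ ℂ) →L[ℂ] (HH →L[ℂ] HH))
    (IO : (ℝ × ℝ →ᵇ ℂ) →L[ℂ] (KK L →L[ℂ] KK L)) (b : ℝ) (κ : ℤ → ℂ → ℂ → ℂ)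
    (O : Finset ℤ) (k z : ℂ) : KK L →L[ℂ] KK L :=
  ∑ n ∈ O, IO (bk (ker x y n (κ n k z))) + QQ W M b O k z

/-- the real point `(k, l)` is not a threshold, and `O` is the set of its open channels -/
def Chan (b : ℝ) (O : Finset ℤ) (k l : ℝ) : Prop :=
  ∀ n : ℤ, (n ∈ O → 4 * Real.pi ^ 2 * b * (k + n) ^ 2 < l) ∧
    (n ∉ O → l < 4 * Real.pi ^ 2 * b * (k + n) ^ 2)

/-! ### Fibre resolvents -/

/-- the resolvent of the fibre operator `a_k - α W-part`, by the Birman-Schwinger formula -/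
def RR {L : ℝ} (W : KK L →L[ℂ] HH) (M : (ℤ × ℝ →ᵇ ℂ) →L[ℂ] (HH →L[ℂ] HH)) (b α : ℝ)
    (k z : ℂ) : HH →L[ℂ] HH :=
  M (bc (mo b 0 ∅ k z)) +
    (α : ℂ) • ((M (bc (mo b 1 ∅ k z))).comp (W.comp
      ((Ring.inverse (1 - (α : ℂ) • QQ W M b ∅ k z)).comp
        ((ContinuousLinearMap.adjoint W).comp (M (bc (mo b 1 ∅ k z)))))))

/-! ### The plane and the fibres -/

/-- the frequency in the plane with the Bloch coordinates `k`, `q` -/
def pt (p : ℝ) (e e' : Pl) (k : ℝ) (q : ℤ × ℝ) : Pl := ((k + q.1) / p) • e + q.2 • e'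

/-- the class in `HH` of a function, `0` if it is not square integrable -/
def cl (F : ℤ × ℝ → ℂ) : HH :=
  open Classical in
  if h : MemLp F 2 nu then h.toLp F else 0

end

end Pool.Agent.H236.LK
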