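import Pool.Agent.H236.LK.Base

set_option autoImplicit false

/-!
# Project LK (helper236, `MP_daec8e_mp`): statements of the parts
-/

namespace Pool.Agent.H236.LK

open MeasureTheory Set Filter Topology
open scoped ENNReal ComplexConjugate BoundedContinuousFunction SchwartzMap FourierTransform

noncomputable section

/-! ## A. Geometry and the trace estimate -/

/-- LK-COORD: coordinates adapted to the period; the curve is bi-Lipschitz. -/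
def S_COORD : Prop := ∀ γ : ℝ → Pl, PeriodicCurve γ → ∃ (p L : ℝ) (e e' : Pl), 0 < p ∧
  Orthonormal ℝ ![e, e'] ∧ (∀ s, γ (s + L) = γ s + p • e) ∧
  Crv L (fun s => inner ℝ e (γ s) / p) (fun s => inner ℝ e' (γ s))

/-- LK-GAU: the heat kernel on the cylinder, by Poisson summation. -/
def S_GAU : Prop := ∀ (t : ℝ), 0 < t → ∀ X Y : ℝ,
  Integrable (fun q : ℤ × ℝ => Complex.exp (-t * ((q.1 : ℂ) ^ 2 + (q.2 : ℂ) ^ 2)) *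
    Complex.exp (-(2 * Real.pi * Complex.I * (q.1 * X + q.2 * Y)))) nu ∧
  Summable (fun m : ℤ => Real.exp (-(Real.pi ^ 2 / t) * ((X + m) ^ 2 + Y ^ 2))) ∧
  ∫ q : ℤ × ℝ, Complex.exp (-t * ((q.1 : ℂ) ^ 2 + (q.2 : ℂ) ^ 2)) *
    Complex.exp (-(2 * Real.pi * Complex.I * (q.1 * X + q.2 * Y))) ∂nu =
    ((Real.pi / t * ∑' m : ℤ, Real.exp (-(Real.pi ^ 2 / t) * ((X + m) ^ 2 + Y ^ 2)) : ℝ) : ℂ)

/-- LK-TRA: the trace estimate with the heat kernel (from LK-GAU and the Schur test). -/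
def S_TRA : Prop := ∀ (L : ℝ) (x y : ℝ → ℝ), Crv L x y → ∃ C : ℝ, 0 < C ∧
  ∀ φ : ℝ → ℂ, MemLp φ 2 (volume.restrict (Ioc (0 : ℝ) L)) → ∀ t : ℝ, 0 < t →
    Integrable (fun q : ℤ × ℝ => ‖Phi L x y φ q‖ ^ 2 *
      Real.exp (-t * ((q.1 : ℝ) ^ 2 + q.2 ^ 2))) nu ∧
    ∫ q : ℤ × ℝ, ‖Phi L x y φ q‖ ^ 2 * Real.exp (-t * ((q.1 : ℝ) ^ 2 + q.2 ^ 2)) ∂nu ≤
      C / √t * ∫ s in Ioc (0 : ℝ) L, ‖φ s‖ ^ 2

/-- LK-TR: the trace estimate. -/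
def S_TR : Prop := ∀ (L : ℝ) (x y : ℝ → ℝ), Crv L x y → ∃ C : ℝ, 0 < C ∧
  ∀ φ : ℝ → ℂ, MemLp φ 2 (volume.restrict (Ioc (0 : ℝ) L)) → ∀ m : ℝ, 1 ≤ m →
    Integrable (fun q : ℤ × ℝ => ‖Phi L x y φ q‖ ^ 2 / (m ^ 2 + (q.1 : ℝ) ^ 2 + q.2 ^ 2)) nu ∧
    ∫ q : ℤ × ℝ, ‖Phi L x y φ q‖ ^ 2 / (m ^ 2 + (q.1 : ℝ) ^ 2 + q.2 ^ 2) ∂nu ≤
      C / m * ∫ s in Ioc (0 : ℝ) L, ‖φ s‖ ^ 2

/-! ## B. The operators -/

/-- LK-WEX: the operator `W` exists. -/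
def S_WEX : Prop := ∀ (L : ℝ) (x y : ℝ → ℝ), Crv L x y → ∃ W : KK L →L[ℂ] HH, IsW L x y W

/-- LK-WC: the operator `W` is a norm limit of operators of finite rank. -/
def S_WC : Prop := ∀ (L : ℝ) (x y : ℝ → ℝ), Crv L x y → ∀ W : KK L →L[ℂ] HH,
  IsW L x y W → W ∈ Cpt (KK L) HH

/-- LK-M: the multiplication operators. -/
def S_M : Prop := ∃ M : (ℤ × ℝ →ᵇ ℂ) →L[ℂ] (HH →L[ℂ] HH), IsM M ∧
  (∀ g h, M (g * h) = (M g).comp (M h)) ∧ M 1 = ContinuousLinearMap.id ℂ HH ∧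
  (∀ g, ContinuousLinearMap.adjoint (M g) = M (star g)) ∧ ∀ g, ‖M g‖ ≤ ‖g‖

/-- LK-IO: the integral operators. -/
def S_IO : Prop := ∀ L : ℝ, 0 < L → ∃ IO : (ℝ × ℝ →ᵇ ℂ) →L[ℂ] (KK L →L[ℂ] KK L), IsIO L IO ∧
  ∀ G, IO G ∈ Cpt (KK L) (KK L)

/-- The setting of the parts: all operators with their properties. -/
structure Sys {L : ℝ} (x y : ℝ → ℝ) (W : KK L →L[ℂ] HH)
    (M : (ℤ × ℝ →ᵇ ℂ) →L[ℂ] (HH →L[ℂ] HH))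
    (IO : (ℝ × ℝ →ᵇ ℂ) →L[ℂ] (KK L →L[ℂ] KK L)) (b : ℝ) : Prop where
  crv : Crv L x y
  b_pos : 0 < b
  isW : IsW L x y W
  isM : IsM M
  isIO : IsIO L IO
  wc : W ∈ Cpt (KK L) HH
  ioc : ∀ G, IO G ∈ Cpt (KK L) (KK L)
  mul : ∀ g h, M (g * h) = (M g).comp (M h)
  one : M 1 = ContinuousLinearMap.id ℂ HH
  adj : ∀ g, ContinuousLinearMap.adjoint (M g) = M (star g)
  nrm : ∀ g, ‖M g‖ ≤ ‖g‖
  tr : ∃ C : ℝ, 0 < C ∧ ∀ φ : KK L, ∀ m : ℝ, 1 ≤ m →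
    Integrable (fun q : ℤ × ℝ => ‖Phi L x y φ q‖ ^ 2 / (m ^ 2 + (q.1 : ℝ) ^ 2 + q.2 ^ 2)) nu ∧
    ∫ q : ℤ × ℝ, ‖Phi L x y φ q‖ ^ 2 / (m ^ 2 + (q.1 : ℝ) ^ 2 + q.2 ^ 2) ∂nu ≤ C / m * ‖φ‖ ^ 2

/-! ## C. Abstract analysis -/

/-- LK-CA: norm limits of finite rank operators form an ideal; the Fredholm alternative. -/
def S_CA : Prop :=
  (∀ (X Y Z : Type) [NormedAddCommGroup X] [NormedSpace ℂ X] [NormedAddCommGroup Y]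
    [NormedSpace ℂ Y] [NormedAddCommGroup Z] [NormedSpace ℂ Z],
    (∀ S T : X →L[ℂ] Y, S ∈ Cpt X Y → T ∈ Cpt X Y → S + T ∈ Cpt X Y) ∧
    (∀ (c : ℂ) (T : X →L[ℂ] Y), T ∈ Cpt X Y → c • T ∈ Cpt X Y) ∧
    (∀ (S : Y →L[ℂ] Z) (T : X →L[ℂ] Y), T ∈ Cpt X Y → S.comp T ∈ Cpt X Z) ∧
    (∀ (S : Y →L[ℂ] Z) (T : X →L[ℂ] Y), S ∈ Cpt Y Z → S.comp T ∈ Cpt X Z)) ∧
  ∀ (X : Type) [NormedAddCommGroup X] [NormedSpace ℂ X] [CompleteSpace X] (T : X →L[ℂ] X),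
    T ∈ Cpt X X → ¬ IsUnit (1 - T) → ∃ v : X, v ≠ 0 ∧ T v = v

/-- LK-LRED: local reduction of the invertibility of `1 - A` to one analytic function. -/
def S_LRED : Prop := ∀ (E X : Type) [NormedAddCommGroup E] [NormedSpace ℂ E]
  [NormedAddCommGroup X] [NormedSpace ℂ X] [CompleteSpace X] (A : E → (X →L[ℂ] X)) (v : E),
  AnalyticAt ℂ A v → A v ∈ Cpt X X →
    ∃ d : E → ℂ, AnalyticAt ℂ d v ∧ ∀ᶠ w in 𝓝 v, (IsUnit (1 - A w) ↔ d w ≠ 0)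

/-- LK-AF: the analytic Fredholm theorem. -/
def S_AF : Prop := ∀ (X : Type) [NormedAddCommGroup X] [NormedSpace ℂ X] [CompleteSpace X]
  (U : Set ℂ), IsOpen U → IsPreconnected U → ∀ A : ℂ → (X →L[ℂ] X), AnalyticOnNhd ℂ A U →
    (∀ k ∈ U, A k ∈ Cpt X X) → (∃ k ∈ U, IsUnit (1 - A k)) →
    ∀ k ∈ U, ∀ᶠ w in 𝓝[≠] k, IsUnit (1 - A w)

/-- LK-LZ: zero sets of analytic functions of two variables meet null sets of second coordinates in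
null sets of first coordinates. -/
def S_LZ : Prop := ∀ (d : ℂ × ℂ → ℂ) (k l : ℝ), AnalyticAt ℂ d ((k : ℂ), (l : ℂ)) →
  (∀ᶠ w in 𝓝[≠] (k : ℂ), d (w, (l : ℂ)) ≠ 0) →
  ∃ V ∈ 𝓝 ((k : ℂ), (l : ℂ)), ∀ N : Set ℝ, volume N = 0 →
    volume {k' : ℝ | ∃ l' ∈ N, ((k' : ℂ), (l' : ℂ)) ∈ V ∧ d ((k' : ℂ), (l' : ℂ)) = 0} = 0

/-- LK-FI: the Green function in one dimension. -/
def S_FI : Prop := ∀ κ : ℂ, 0 < κ.re → ∀ u : ℝ,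
  Integrable (fun ξ : ℝ => Complex.exp (2 * Real.pi * Complex.I * ξ * u) /
    (4 * Real.pi ^ 2 * (ξ : ℂ) ^ 2 + κ ^ 2)) ∧
  ∫ ξ : ℝ, Complex.exp (2 * Real.pi * Complex.I * ξ * u) / (4 * Real.pi ^ 2 * (ξ : ℂ) ^ 2 + κ ^ 2) =
    Complex.exp (-κ * |u|) / (2 * κ)

/-! ## D. Symbols and branches -/

/-- LK-GD: where the symbol is away from the energy. -/
def S_GD : Prop := ∀ b : ℝ, 0 < b →
  (∀ (k : ℂ) (l : ℝ), 0 < k.re → k.re < 1 → 0 < k.im → Good b ∅ k l) ∧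
  (∀ (k : ℝ) (z : ℂ), z.im ≠ 0 → Good b ∅ k z) ∧
  (∀ (k l : ℝ) (O : Finset ℤ), Chan b O k l → Good b O k l) ∧
  (∀ (k : ℝ) (c : ℝ), 0 < c → Good b ∅ k (-c)) ∧
  (∀ (k z : ℂ) (O O' : Finset ℤ), O ⊆ O' → Good b O k z → Good b O' k z) ∧
  (∀ (k z : ℂ) (O : Finset ℤ), Good b O k z →
    ∀ᶠ w : ℂ × ℂ in 𝓝 (k, z), Good b O w.1 w.2) ∧
  (∀ k l : ℝ, (∀ n : ℤ, 4 * Real.pi ^ 2 * b * (k + n) ^ 2 ≠ l) → ∃ O, Chan b O k l) ∧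
  (∀ (k l : ℝ) (O : Finset ℤ), Chan b O k l →
    ∀ᶠ w : ℝ × ℝ in 𝓝 (k, l), Chan b O w.1 w.2)

/-- LK-SQ: the branches of the square root. -/
def S_SQ : Prop :=
  (∀ w : ℂ, (0 < w.im ∨ (w.im = 0 ∧ w.re ≠ 0)) → AnalyticAt ℂ sqU w ∧ sqU w ^ 2 = w) ∧
  (∀ w : ℂ, 0 < w.im → 0 < (sqU w).re) ∧
  (∀ w : ℂ, (w.im < 0 ∨ (w.im = 0 ∧ w.re ≠ 0)) → AnalyticAt ℂ sqD w ∧ sqD w ^ 2 = w) ∧
  (∀ w : ℂ, w.im < 0 → 0 < (sqD w).re) ∧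
  (∀ r : ℝ, 0 < r → sqU (-(r : ℂ) ^ 2) = Complex.I * r ∧ sqD (-(r : ℂ) ^ 2) = -(Complex.I * r) ∧
    -Complex.I * ((r : ℂ) ^ 2) ^ (1 / 2 : ℂ) = -(Complex.I * r)) ∧
  (∀ (b : ℝ) (n : ℤ) (k : ℝ) (z : ℂ), 0 < z.im →
    0 < (kout b n k z).re ∧ kout b n k z ^ 2 = ch b n k z) ∧
  (∀ (b : ℝ) (n : ℤ) (k l : ℝ), 4 * Real.pi ^ 2 * b * (k + n) ^ 2 < l →
    AnalyticAt ℂ (fun w : ℂ × ℂ => kout b n w.1 w.2) ((k : ℂ), (l : ℂ)) ∧ kout b n k l ≠ 0)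

/-! ## E. The Birman-Schwinger operators -/

/-- LK-KW: one channel of the Birman-Schwinger operator. -/
def S_KW : Prop := ∀ {L : ℝ} (x y : ℝ → ℝ) (W M IO) (b : ℝ), Sys (L := L) x y W M IO b →
  ∀ (n : ℤ) (κ : ℂ), 0 < κ.re →
    (ContinuousLinearMap.adjoint W).comp ((M (bc (fun q => if q.1 = n then
      (om2 q : ℂ) / (4 * Real.pi ^ 2 * (q.2 : ℂ) ^ 2 + κ ^ 2) else 0))).comp W) =
    IO (bk (ker x y n κ))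

/-- LK-SPLIT: the Birman-Schwinger operator with some channels in closed form. -/
def S_SPLIT : Prop := ∀ {L : ℝ} (x y : ℝ → ℝ) (W M IO) (b : ℝ), Sys (L := L) x y W M IO b →
  ∀ (O : Finset ℤ) (k z : ℂ), Good b ∅ k z → ∀ κ : ℤ → ℂ → ℂ → ℂ,
    (∀ n ∈ O, 0 < (κ n k z).re ∧ κ n k z ^ 2 = ch b n k z) →
    QQ W M b ∅ k z = AA x y W M IO b κ O k z

/-- LK-LT: the Birman-Schwinger operator is small for large imaginary quasi-momenta. -/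
def S_LT : Prop := ∀ {L : ℝ} (x y : ℝ → ℝ) (W M IO) (b : ℝ), Sys (L := L) x y W M IO b →
  ∀ (l ε : ℝ), 0 < ε → ∃ τ : ℝ, 0 < τ ∧ ‖QQ W M b ∅ (1 / 2 + τ * Complex.I) l‖ ≤ ε

/-- LK-ANAQ: the closed channels are analytic in the quasi-momentum and the energy. -/
def S_ANAQ : Prop := ∀ {L : ℝ} (x y : ℝ → ℝ) (W M IO) (b : ℝ), Sys (L := L) x y W M IO b →
  ∀ (O : Finset ℤ) (k z : ℂ) (j : ℕ), j ≤ 2 → Good b O k z →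
    AnalyticAt ℂ (fun w : ℂ × ℂ => M (bc (mo b j O w.1 w.2))) (k, z)

/-- LK-ANAK: the channels in closed form are analytic in `κ ≠ 0`. -/
def S_ANAK : Prop := ∀ {L : ℝ} (x y : ℝ → ℝ) (W M IO) (b : ℝ), Sys (L := L) x y W M IO b →
  ∀ (n : ℤ) (κ : ℂ), κ ≠ 0 → AnalyticAt ℂ (fun κ : ℂ => IO (bk (ker x y n κ))) κ

/-- LK-ANAA: the operators `AA` are compact and analytic. -/
def S_ANAA : Prop := ∀ {L : ℝ} (x y : ℝ → ℝ) (W M IO) (b : ℝ), Sys (L := L) x y W M IO b →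
  ∀ O : Finset ℤ, (∀ (κ : ℤ → ℂ → ℂ → ℂ) (k z : ℂ), AA x y W M IO b κ O k z ∈ Cpt (KK L) (KK L)) ∧
    (∀ k l : ℝ, Chan b O k l →
      AnalyticAt ℂ (fun w : ℂ × ℂ => AA x y W M IO b (kmix b) O w.1 w.2) ((k : ℂ), (l : ℂ)) ∧
      AnalyticAt ℂ (fun w : ℂ × ℂ => AA x y W M IO b (kout b) O w.1 w.2) ((k : ℂ), (l : ℂ))) ∧
    ∀ (k : ℂ) (l : ℝ), 0 < k.re → k.re < 1 → 0 < k.im →
      AnalyticAt ℂ (fun w : ℂ × ℂ => AA x y W M IO b (kmix b) O w.1 w.2) (k, (l : ℂ))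

/-- LK-FLUX: singular outgoing operators have singular mixed operators. -/
def S_FLUX : Prop := ∀ {L : ℝ} (x y : ℝ → ℝ) (W M IO) (b : ℝ), Sys (L := L) x y W M IO b →
  ∀ (α k l : ℝ) (O : Finset ℤ), 0 < α → Chan b O k l →
    ¬ IsUnit (1 - (α : ℂ) • AA x y W M IO b (kout b) O k l) →
    ¬ IsUnit (1 - (α : ℂ) • AA x y W M IO b (kmix b) O k l)

/-- LK-ORD: the local function of two variables. -/
def S_ORD : Prop := ∀ {L : ℝ} (x y : ℝ → ℝ) (W M IO) (b : ℝ), Sys (L := L) x y W M IO b →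
  ∀ (α k l : ℝ) (O : Finset ℤ), 0 < α → 0 < k → k < 1 → Chan b O k l →
    ∃ d : ℂ × ℂ → ℂ, AnalyticAt ℂ d ((k : ℂ), (l : ℂ)) ∧
      (∀ᶠ w : ℂ × ℂ in 𝓝 ((k : ℂ), (l : ℂ)),
        ¬ IsUnit (1 - (α : ℂ) • AA x y W M IO b (kmix b) O w.1 w.2) → d w = 0) ∧
      ∀ᶠ w in 𝓝[≠] (k : ℂ), d (w, (l : ℂ)) ≠ 0

/-- LK-NULL: for a null set of energies almost all quasi-momenta are good. -/
def S_NULL : Prop := ∀ {L : ℝ} (x y : ℝ → ℝ) (W M IO) (b : ℝ), Sys (L := L) x y W M IO b →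
  ∀ (α : ℝ) (N : Set ℝ), 0 < α → volume N = 0 → ∀ᵐ k : ℝ, k ∈ Ioo (0 : ℝ) 1 →
    ∀ l ∈ N, ∃ O : Finset ℤ, Chan b O k l ∧
      IsUnit (1 - (α : ℂ) • AA x y W M IO b (kout b) O k l)

/-! ## F. The fibre resolvents -/

/-- LK-UNIT: invertibility off the real axis. -/
def S_UNIT : Prop := ∀ {L : ℝ} (x y : ℝ → ℝ) (W M IO) (b : ℝ), Sys (L := L) x y W M IO b →
  ∀ (α k : ℝ) (z : ℂ), z.im ≠ 0 → IsUnit (1 - (α : ℂ) • QQ W M b ∅ k z)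

/-- LK-BASE: uniformly far to the left of the spectrum. -/
def S_BASE : Prop := ∀ {L : ℝ} (x y : ℝ → ℝ) (W M IO) (b : ℝ), Sys (L := L) x y W M IO b →
  ∀ (α : ℝ), 0 < α → ∃ c : ℝ, 0 < c ∧ ∀ k ∈ Icc (0 : ℝ) 1, ‖(α : ℂ) • QQ W M b ∅ k (-c)‖ ≤ 1 / 2

/-- LK-RID: the resolvent identity and the adjoint. -/
def S_RID : Prop := ∀ {L : ℝ} (x y : ℝ → ℝ) (W M IO) (b : ℝ), Sys (L := L) x y W M IO b →
  (∀ (α : ℝ) (k z w : ℂ), Good b ∅ k z → Good b ∅ k w →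
    IsUnit (1 - (α : ℂ) • QQ W M b ∅ k z) → IsUnit (1 - (α : ℂ) • QQ W M b ∅ k w) →
    RR W M b α k z - RR W M b α k w = (z - w) • (RR W M b α k z).comp (RR W M b α k w)) ∧
  ∀ (α k : ℝ) (z : ℂ), Good b ∅ k z → IsUnit (1 - (α : ℂ) • QQ W M b ∅ k z) →
    ContinuousLinearMap.adjoint (RR W M b α k z) = RR W M b α k (conj z)

/-- `ω (H_k - z)⁻¹` -/
def VV {L : ℝ} (W : KK L →L[ℂ] HH) (M : (ℤ × ℝ →ᵇ ℂ) →L[ℂ] (HH →L[ℂ] HH)) (b α : ℝ)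
    (k z : ℂ) : HH →L[ℂ] HH :=
  M (bc (mo b 1 ∅ k z)) +
    (α : ℂ) • ((M (bc (mo b 2 ∅ k z))).comp (W.comp
      ((Ring.inverse (1 - (α : ℂ) • QQ W M b ∅ k z)).comp
        ((ContinuousLinearMap.adjoint W).comp (M (bc (mo b 1 ∅ k z)))))))

/-- LK-EQ: the equation of the fibre resolvent. -/
def S_EQ : Prop := ∀ {L : ℝ} (x y : ℝ → ℝ) (W M IO) (b : ℝ), Sys (L := L) x y W M IO b →
  ∀ (α k : ℝ) (z : ℂ), z.im ≠ 0 → IsUnit (1 - (α : ℂ) • QQ W M b ∅ k z) → ∀ f g : HH,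
    RR W M b α k z f = M (bc fun q => ((om q : ℂ))⁻¹) (VV W M b α k z f) ∧
    inner ℂ g (M (bc fun q => (sy b k q - z) / (om2 q : ℂ)) (VV W M b α k z f)) -
      α * inner ℂ (ContinuousLinearMap.adjoint W g)
        (ContinuousLinearMap.adjoint W (VV W M b α k z f)) =
      inner ℂ (M (bc fun q => ((om q : ℂ))⁻¹) g) f

/-- LK-SPM: the spectral measures of the fibre operators. -/
def S_SPM : Prop := ∀ {L : ℝ} (x y : ℝ → ℝ) (W M IO) (b : ℝ), Sys (L := L) x y W M IO b →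
  ∀ (α : ℝ), 0 < α → ∀ k ∈ Icc (0 : ℝ) 1, ∀ f : HH, ∃ μ : Measure ℝ, IsFiniteMeasure μ ∧
    μ univ ≤ ENNReal.ofReal (‖f‖ ^ 2) ∧
    ∀ z : ℂ, z.im ≠ 0 → inner ℂ f (RR W M b α k z f) = ∫ l, ((l : ℂ) - z)⁻¹ ∂μ

/-- the vectors `δ_n ⊗ ψ` -/
def dn (n : ℤ) (ψ : 𝓢(ℝ, ℂ)) : HH := cl fun q => if q.1 = n then ψ q.2 else 0

/-- LK-TOT: the vectors `δ_n ⊗ ψ` are total. -/
def S_TOT : Prop := (∀ (n : ℤ) (ψ : 𝓢(ℝ, ℂ)),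
    MemLp (fun q : ℤ × ℝ => if q.1 = n then ψ q.2 else 0) 2 nu) ∧
  ∀ g : HH, (∀ (n : ℤ) (ψ : 𝓢(ℝ, ℂ)), inner ℂ (dn n ψ) g = 0) → g = 0

/-- LK-LOC: local bounds for the resolvent at good energies. -/
def S_LOC : Prop := ∀ {L : ℝ} (x y : ℝ → ℝ) (W M IO) (b : ℝ), Sys (L := L) x y W M IO b →
  ∀ (α k l : ℝ) (O : Finset ℤ), 0 < α → Chan b O k l →
    IsUnit (1 - (α : ℂ) • AA x y W M IO b (kout b) O k l) → ∀ (n : ℤ) (ψ : 𝓢(ℝ, ℂ)),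
    ∃ δ C : ℝ, 0 < δ ∧ ∀ z : ℂ, ‖z - l‖ < δ → 0 < z.im →
      ‖inner ℂ (dn n ψ) (RR W M b α k z (dn n ψ))‖ ≤ C

/-- LK-ACC: finite measures with a locally bounded Cauchy transform. -/
def S_ACC : Prop := ∀ (μ : Measure ℝ) [IsFiniteMeasure μ] (N : Set ℝ), MeasurableSet N →
  volume N = 0 → (∀ l ∈ N, ∃ δ C : ℝ, 0 < δ ∧ ∀ z : ℂ, ‖z - l‖ < δ → 0 < z.im →
    ‖∫ t, ((t : ℂ) - z)⁻¹ ∂μ‖ ≤ C) → μ N = 0

/-- LK-STU: a finite measure is determined by its Cauchy transform. -/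
def S_STU : Prop := ∀ (μ ν : Measure ℝ) [IsFiniteMeasure μ] [IsFiniteMeasure ν],
  (∀ z : ℂ, z.im ≠ 0 → ∫ t, ((t : ℂ) - z)⁻¹ ∂μ = ∫ t, ((t : ℂ) - z)⁻¹ ∂ν) → μ = ν

/-- LK-ALL: null sets of the spectral measures of a total family are null sets for all vectors. -/
def S_ALL : Prop := ∀ (X : Type) [NormedAddCommGroup X] [InnerProductSpace ℂ X] [CompleteSpace X]
  (R : ℂ → (X →L[ℂ] X)) (μ : X → Measure ℝ), (∀ f, IsFiniteMeasure (μ f)) →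
  (∀ f, μ f univ ≤ ENNReal.ofReal (‖f‖ ^ 2)) →
  (∀ f (z : ℂ), z.im ≠ 0 → inner ℂ f (R z f) = ∫ l, ((l : ℂ) - z)⁻¹ ∂(μ f)) →
  ∀ N : Set ℝ, MeasurableSet N → ∀ D : Set X, (∀ g, (∀ f ∈ D, inner ℂ f g = 0) → g = 0) →
  (∀ f ∈ D, μ f N = 0) → ∀ f, μ f N = 0

/-! ## G. From the fibres to the plane -/

/-- LK-MIX: mixtures of measures with given Cauchy transforms. -/
def S_MIX : Prop := ∀ (F : ℝ → ℂ → ℂ) (μ : ℝ → Measure ℝ) (g : ℝ → ℝ),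
  (∀ z : ℂ, z.im ≠ 0 → AEStronglyMeasurable (fun k => F k z) (volume.restrict (Ioo (0 : ℝ) 1))) →
  IntegrableOn g (Ioo (0 : ℝ) 1) →
  (∀ᵐ k ∂(volume.restrict (Ioo (0 : ℝ) 1)), μ k univ ≤ ENNReal.ofReal (g k) ∧
    ∀ z : ℂ, z.im ≠ 0 → F k z = ∫ l, ((l : ℂ) - z)⁻¹ ∂(μ k)) →
  ∃ m : Measure ℝ, IsFiniteMeasure m ∧
    (∀ z : ℂ, z.im ≠ 0 → ∫ k in Ioo (0 : ℝ) 1, F k z = ∫ l, ((l : ℂ) - z)⁻¹ ∂m) ∧
    ∀ N : Set ℝ, MeasurableSet N → (∀ᵐ k ∂(volume.restrict (Ioo (0 : ℝ) 1)), μ k N = 0) → m N = 0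

/-- LK-FUB: the Bloch coordinates preserve the measure. -/
def S_FUB : Prop := ∀ (p : ℝ) (e e' : Pl), 0 < p → Orthonormal ℝ ![e, e'] →
  MeasurePreserving (fun w : ℝ × (ℤ × ℝ) => pt p e e' w.1 w.2)
    ((volume.restrict (Ioo (0 : ℝ) 1)).prod nu) (ENNReal.ofReal p • volume) ∧
  ∃ iv : Pl → ℝ × (ℤ × ℝ), Measurable iv ∧ (∀ ζ, pt p e e' (iv ζ).1 (iv ζ).2 = ζ) ∧
    ∀ k ∈ Ioo (0 : ℝ) 1, ∀ q, iv (pt p e e' k q) = (k, q)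

/-- LK-FIB: the fibres of square integrable functions on the plane. -/
def S_FIB : Prop := ∀ (p : ℝ) (e e' : Pl), 0 < p → Orthonormal ℝ ![e, e'] →
  (∀ g : Pl → ℂ, MemLp g 2 volume →
    (∀ᵐ k ∂(volume.restrict (Ioo (0 : ℝ) 1)), MemLp (fun q => g (pt p e e' k q)) 2 nu) ∧
    AEStronglyMeasurable (fun k => cl fun q => g (pt p e e' k q))
      (volume.restrict (Ioo (0 : ℝ) 1))) ∧
  ∀ g h : Pl → ℂ, MemLp g 2 volume → MemLp h 2 volume →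
    IntegrableOn (fun k => inner ℂ (cl fun q => g (pt p e e' k q))
      (cl fun q => h (pt p e e' k q))) (Ioo (0 : ℝ) 1) ∧
    ∫ ζ, h ζ * conj (g ζ) = (1 / p : ℂ) * ∫ k in Ioo (0 : ℝ) 1,
      inner ℂ (cl fun q => g (pt p e e' k q)) (cl fun q => h (pt p e e' k q))

/-- LK-RC: the fibre resolvents are continuous in the quasi-momentum. -/
def S_RC : Prop := ∀ {L : ℝ} (x y : ℝ → ℝ) (W M IO) (b : ℝ), Sys (L := L) x y W M IO b →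
  ∀ (α : ℝ) (z : ℂ), z.im ≠ 0 →
    ContinuousOn (fun k : ℝ => RR W M b α k z) (Icc (0 : ℝ) 1) ∧
    ContinuousOn (fun k : ℝ => VV W M b α k z) (Icc (0 : ℝ) 1)

/-- LK-LIFT: the solution on the plane from the solutions on the fibres. -/
def S_LIFT : Prop := ∀ {L : ℝ} (x y : ℝ → ℝ) (W M IO) (b : ℝ), Sys (L := L) x y W M IO b →
  ∀ (p : ℝ) (e e' : Pl), 0 < p → b = 1 / p ^ 2 → Orthonormal ℝ ![e, e'] →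
  ∀ (α : ℝ) (z : ℂ), z.im ≠ 0 → ∀ f : Pl → ℂ, MemLp f 2 volume →
    ∃ u : Pl → ℂ, MemLp (fun ζ => ((√(1 + ‖ζ‖ ^ 2) : ℝ) : ℂ) * u ζ) 2 volume ∧
      ∀ᵐ k ∂(volume.restrict (Ioo (0 : ℝ) 1)),
        MemLp (fun q => (om q : ℂ) * u (pt p e e' k q)) 2 nu ∧
        cl (fun q => (om q : ℂ) * u (pt p e e' k q)) =
          VV W M b α k z (cl fun q => f (pt p e e' k q))

/-- The geometric data of the last parts. -/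
structure Geo (L p : ℝ) (e e' : Pl) (x y : ℝ → ℝ) (γ : ℝ → Pl) : Prop where
  p_pos : 0 < p
  orth : Orthonormal ℝ ![e, e']
  per : ∀ s, γ (s + L) = γ s + p • e
  hx : ∀ s, x s = inner ℝ e (γ s) / p
  hy : ∀ s, y s = inner ℝ e' (γ s)

/-- `ω φ̂` in the fibre `k` -/
def gk (p : ℝ) (e e' : Pl) (φ : 𝓢(Pl, ℂ)) (k : ℝ) : HH :=
  cl fun q => (om q : ℂ) * (𝓕 φ) (pt p e e' k q)

/-- the function `e^{-2πi k x(s)} φ(γ(s))` in the fibre `k`, up to a factor -/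
def GG (p : ℝ) (e e' : Pl) (x y : ℝ → ℝ) (φ : 𝓢(Pl, ℂ)) (k s : ℝ) : ℂ :=
  ∫ q, ev x y q s * (𝓕 φ) (pt p e e' k q) ∂nu

/-- LK-TRC: the fibres of the trace of a Schwartz function. -/
def S_TRC : Prop := ∀ {L : ℝ} (x y : ℝ → ℝ) (W M IO) (b : ℝ), Sys (L := L) x y W M IO b →
  ∀ (p : ℝ) (e e' : Pl) (γ : ℝ → Pl), Geo L p e e' x y γ → ∀ φ : 𝓢(Pl, ℂ),
    Continuous (fun w : ℝ × ℝ => GG p e e' x y φ w.1 w.2) ∧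
    (∀ k s, GG p e e' x y φ k (s + L) = GG p e e' x y φ k s) ∧
    (∀ s, φ (γ s) = (1 / p : ℂ) * ∫ k in Ioo (0 : ℝ) 1,
      Complex.exp (2 * Real.pi * Complex.I * k * x s) * GG p e e' x y φ k s) ∧
    ∀ k : ℝ, MemLp (fun q => (om q : ℂ) * (𝓕 φ) (pt p e e' k q)) 2 nu ∧
      (ContinuousLinearMap.adjoint W (gk p e e' φ k) : ℝ → ℂ)
        =ᵐ[volume.restrict (Ioc (0 : ℝ) L)] GG p e e' x y φ k

/-- LK-TRACE: the traces of Schwartz functions on the curve, in the fibres. -/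
def S_TRACE : Prop := ∀ {L : ℝ} (x y : ℝ → ℝ) (W M IO) (b : ℝ), Sys (L := L) x y W M IO b →
  ∀ (p : ℝ) (e e' : Pl) (γ : ℝ → Pl), Geo L p e e' x y γ → ∀ φ ψ : 𝓢(Pl, ℂ),
    Integrable (fun s => φ (γ s) * conj (ψ (γ s))) ∧
    (∀ k ∈ Icc (0 : ℝ) 1, MemLp (fun q => (om q : ℂ) * (𝓕 φ) (pt p e e' k q)) 2 nu) ∧
    IntegrableOn (fun k => inner ℂ (ContinuousLinearMap.adjoint W (gk p e e' ψ k))
      (ContinuousLinearMap.adjoint W (gk p e e' φ k))) (Ioo (0 : ℝ) 1) ∧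
    ∫ s, φ (γ s) * conj (ψ (γ s)) = (1 / p ^ 2 : ℂ) * ∫ k in Ioo (0 : ℝ) 1,
      inner ℂ (ContinuousLinearMap.adjoint W (gk p e e' ψ k))
        (ContinuousLinearMap.adjoint W (gk p e e' φ k))

/-- LK-GRAD: Plancherel for the gradient. -/
def S_GRAD : Prop := (∀ φ ψ : 𝓢(Pl, ℂ),
    Integrable (fun x => ∑ i : Fin 2, fderiv ℝ φ x (EuclideanSpace.single i 1) *
      conj (fderiv ℝ ψ x (EuclideanSpace.single i 1))) ∧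
    Integrable (fun ζ => ((4 * Real.pi ^ 2 * ‖ζ‖ ^ 2 : ℝ) : ℂ) * ((𝓕 φ) ζ * conj ((𝓕 ψ) ζ))) ∧
    ∫ x, ∑ i : Fin 2, fderiv ℝ φ x (EuclideanSpace.single i 1) *
      conj (fderiv ℝ ψ x (EuclideanSpace.single i 1)) =
      ∫ ζ, ((4 * Real.pi ^ 2 * ‖ζ‖ ^ 2 : ℝ) : ℂ) * ((𝓕 φ) ζ * conj ((𝓕 ψ) ζ)) ∧
    ∫ x, φ x * conj (ψ x) = ∫ ζ, (𝓕 φ) ζ * conj ((𝓕 ψ) ζ)) ∧
  ∀ φ : 𝓢(Pl, ℂ), Integrable (fun x => ‖fderiv ℝ φ x‖ ^ 2) ∧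
    Integrable (fun ζ => 4 * Real.pi ^ 2 * ‖ζ‖ ^ 2 * ‖(𝓕 φ) ζ‖ ^ 2) ∧
    ∫ x, ‖fderiv ℝ φ x‖ ^ 2 ≤ ∫ ζ, 4 * Real.pi ^ 2 * ‖ζ‖ ^ 2 * ‖(𝓕 φ) ζ‖ ^ 2 ∧
    ∫ ζ, 4 * Real.pi ^ 2 * ‖ζ‖ ^ 2 * ‖(𝓕 φ) ζ‖ ^ 2 ≤ 2 * ∫ x, ‖fderiv ℝ φ x‖ ^ 2

/-- LK-DENS: Schwartz functions are dense in `H¹`, on the Fourier side. -/
def S_DENS : Prop := ∀ u : Pl → ℂ, MemLp (fun ζ => ((√(1 + ‖ζ‖ ^ 2) : ℝ) : ℂ) * u ζ) 2 volume →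
  ∃ φ : ℕ → 𝓢(Pl, ℂ), Tendsto (fun j => eLpNorm (fun ζ => ((√(1 + ‖ζ‖ ^ 2) : ℝ) : ℂ) *
    ((𝓕 (φ j)) ζ - u ζ)) 2 volume) atTop (𝓝 0)

/-- LK-L2F: the Fourier transform of square integrable functions. -/
def S_L2F : Prop := ∃ 𝓖 : Lp ℂ 2 (volume : Measure Pl) ≃ₗᵢ[ℂ] Lp ℂ 2 (volume : Measure Pl),
  ∀ φ : 𝓢(Pl, ℂ), 𝓖 (φ.toLp 2) = (𝓕 φ : 𝓢(Pl, ℂ)).toLp 2

/-- LK-FORM: the quadratic form in the fibres. -/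
def S_FORM : Prop := ∀ {L : ℝ} (x y : ℝ → ℝ) (W M IO) (b : ℝ), Sys (L := L) x y W M IO b →
  ∀ (p : ℝ) (e e' : Pl) (γ : ℝ → Pl), Geo L p e e' x y γ → b = 1 / p ^ 2 →
  ∀ (α : ℝ) (z : ℂ) (φ ψ : 𝓢(Pl, ℂ)),
    IntegrableOn (fun k : ℝ => inner ℂ (gk p e e' ψ k)
        (M (bc fun q => (sy b k q - z) / (om2 q : ℂ)) (gk p e e' φ k)) -
      (α / p : ℂ) * inner ℂ (ContinuousLinearMap.adjoint W (gk p e e' ψ k))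
        (ContinuousLinearMap.adjoint W (gk p e e' φ k))) (Ioo (0 : ℝ) 1) ∧
    form α γ z φ ψ = (1 / p : ℂ) * ∫ k in Ioo (0 : ℝ) 1, (inner ℂ (gk p e e' ψ k)
        (M (bc fun q => (sy b k q - z) / (om2 q : ℂ)) (gk p e e' φ k)) -
      (α / p : ℂ) * inner ℂ (ContinuousLinearMap.adjoint W (gk p e e' ψ k))
        (ContinuousLinearMap.adjoint W (gk p e e' φ k)))

/-- LK-EXIST: the resolvent on the plane in the fibres. -/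
def S_EXIST : Prop := ∀ {L : ℝ} (x y : ℝ → ℝ) (W M IO) (b : ℝ), Sys (L := L) x y W M IO b →
  ∀ (p : ℝ) (e e' : Pl) (γ : ℝ → Pl), Geo L p e e' x y γ → b = 1 / p ^ 2 →
  ∀ (𝓖 : Lp ℂ 2 (volume : Measure Pl) ≃ₗᵢ[ℂ] Lp ℂ 2 (volume : Measure Pl)),
  (∀ φ : 𝓢(Pl, ℂ), 𝓖 (φ.toLp 2) = (𝓕 φ : 𝓢(Pl, ℂ)).toLp 2) →
  ∀ (α : ℝ) (z : ℂ), z.im ≠ 0 → ∀ f : Lp ℂ 2 (volume : Measure Pl),
    ∃ u, IsRes α γ z f u ∧ inner ℂ f u = (1 / p : ℂ) * ∫ k in Ioo (0 : ℝ) 1,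
      inner ℂ (cl fun q => (𝓖 f) (pt p e e' k q))
        (RR W M b (α / p) k z (cl fun q => (𝓖 f) (pt p e e' k q)))

/-- LK-UNIQ: uniqueness of the resolvent on the plane. -/
def S_UNIQ : Prop := ∀ {L : ℝ} (x y : ℝ → ℝ) (W M IO) (b : ℝ), Sys (L := L) x y W M IO b →
  ∀ (p : ℝ) (e e' : Pl) (γ : ℝ → Pl), Geo L p e e' x y γ → b = 1 / p ^ 2 →
  ∀ (α : ℝ) (z : ℂ), z.im ≠ 0 → ∀ f u u' : Lp ℂ 2 (volume : Measure Pl),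
    IsRes α γ z f u → IsRes α γ z f u' → u = u'

/-- LK-MAIN: the final statement. -/
def S_MAIN : Prop := ∀ (α : ℝ) (γ : ℝ → Pl), 0 < α → PeriodicCurve γ →
  ∀ f : Lp ℂ 2 (volume : Measure Pl), ∃ μ : Measure ℝ, IsFiniteMeasure μ ∧ μ ≪ volume ∧
    ∀ z : ℂ, z.im ≠ 0 → ∃ u, IsRes α γ z f u ∧ (∀ u', IsRes α γ z f u' → u' = u) ∧
      inner ℂ f u = ∫ l, ((l : ℂ) - z)⁻¹ ∂μ

end

end Pool.Agent.H236.LK
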